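import Pool.Agent.H218.ZP.Several
import Pool.Agent.V11210.NA.Mv

/-!
# Finite-state prediction of polynomials in `x` and arbitrary real numbers
-/

set_option autoImplicit false

namespace Pool.Agent.H218.ZP

open Finset Pool.Agent Pool.Agent.H218.ZW
open Pool.Agent.TH456.TM (MeasT)
open Pool.Agent.V11210.NA (AF fn fn_inj near_ev)

theorem charZero_AF : CharZero AF := by
  have h1 : Function.Injective (Int.castRingHom AF) := by
    have h2 : Int.castRingHom AF = fn.comp (Polynomial.C : ℤ →+* Polynomial ℤ) := RingHom.ext_int _ _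
    rw [h2]
    exact fn_inj.comp Polynomial.C_injective
  refine ⟨fun a b hab => ?_⟩
  have h3 : (Int.castRingHom AF) (a : ℤ) = (Int.castRingHom AF) (b : ℤ) := by
    simpa using hab
  exact_mod_cast h1 h3

/-- the near relations -/
theorem onePoint (x : ℝ) (hx : MeasT (x : ℂ)) (r d : ℕ) :
    ∃ κ : ℝ, 0 < κ ∧ ∀ T : ℝ, ∃ c : ℝ, 0 < c ∧ ∀ t : Fin r → ℝ, (∀ i, |t i| ≤ T) →
      OnePoint AF (r + 1) d κ c (Fin.cons x t)
        (fun y' => ∃ y : Fin r → AF, y' = Fin.cons (fn Polynomial.X) y) := by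
  obtain ⟨κ, hκ, h⟩ := near_ev fn fn_inj _ hx r d
  refine ⟨κ, hκ, fun T => ?_⟩
  obtain ⟨c, hc, h⟩ := h T
  refine ⟨c, hc, fun t ht H hH => ?_⟩
  obtain ⟨y, hy⟩ := h (fun i => (t i : ℂ)) (fun i => by
    rw [Complex.norm_real, Real.norm_eq_abs]
    exact ht i) H hH
  refine ⟨Fin.cons (fn Polynomial.X) y, ⟨y, rfl⟩, fun P hP hP0 => ?_⟩
  have h1 := hy P hP.1 hP.2 hP0
  have h2 : P.eval₂ (Int.castRingHom ℂ) (Fin.cons (x : ℂ) (fun i => (t i : ℂ)) : Fin (r + 1) → ℂ) =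
      ((P.eval₂ (Int.castRingHom ℝ) (Fin.cons x t : Fin (r + 1) → ℝ) : ℝ) : ℂ) := by
    have h3 := MvPolynomial.eval₂_comp_left (Complex.ofRealHom) (Int.castRingHom ℝ)
      (Fin.cons x t : Fin (r + 1) → ℝ) P
    rw [Complex.ofRealHom_eq_coe] at h3
    rw [h3]
    congr 1
    funext i
    refine Fin.cases ?_ (fun j => ?_) i
    · simp
    · simp
  rw [h2, Complex.norm_real, Real.norm_eq_abs] at h1
  exact h1

lemma cons_bound (x T : ℝ) (r : ℕ) (t : Fin r → ℝ) (ht : ∀ i, |t i| ≤ T) (i : Fin (r + 1)) :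
    |(Fin.cons x t : Fin (r + 1) → ℝ) i| ≤ max 1 (max |x| T) := by
  refine Fin.cases ?_ (fun j => ?_) i
  · rw [Fin.cons_zero]
    exact (le_max_left _ _).trans (le_max_right _ _)
  · rw [Fin.cons_succ]
    exact (ht j).trans ((le_max_right _ _).trans (le_max_right _ _))

/-- **Several polynomials.** -/
theorem predictAlg (x : ℝ) (hx : MeasT (x : ℂ)) (r d : ℕ) :
    ∃ κ : ℝ, 1 < κ ∧ ∀ T : ℝ,
    (∀ m : ℕ, 1 ≤ m → ∃ C : ℝ, ∀ (t : Fin r → ℝ), (∀ i, |t i| ≤ T) →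
      ∀ (H τ : ℝ) (P : Fin m → MvPolynomial (Fin (r + 1)) ℤ)
      (D b S N : Fin m → ℕ) (A : ∀ i, Machine (Fin (S i))), 1 ≤ H → 0 < τ →
      (∀ i, Bd (r + 1) d H (P i)) → (∀ i, 1 ≤ D i) → (∀ i, (D i : ℝ) ≤ H) → (∀ i, 2 ≤ b i) →
      (∀ i, τ ≤ N i * Real.log (b i)) →
      ((∑ i, (A i).errors (b i) ((P i).eval₂ (Int.castRingHom ℝ)
        (Fin.cons x t : Fin (r + 1) → ℝ) / D i) (N i) : ℕ) : ℝ) <
        (Real.log τ - Real.log (∑ i, (S i : ℝ) * Real.log (b i) + Real.log H)) /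
          Real.log (m * κ) - C →
      ∃ y : Fin r → AF, ∀ i, ∃ q : ℚ, (P i).eval₂ (Int.castRingHom AF)
        (Fin.cons (fn Polynomial.X) y : Fin (r + 1) → AF) = q) ∧
    (∃ C : ℝ, ∀ (t : Fin r → ℝ), (∀ i, |t i| ≤ T) → ∀ (H τ s : ℝ), 1 ≤ H → 0 < τ →
      ∃ y : Fin r → AF, ∀ (P : MvPolynomial (Fin (r + 1)) ℤ) (D : ℕ), Bd (r + 1) d H P → 1 ≤ D →
        (D : ℝ) ≤ H →
        Predicted s τ ((Real.log τ - Real.log (s + Real.log H)) /
          ((((d + 1) ^ (r + 1) : ℕ) : ℝ) * Real.log ((((d + 1) ^ (r + 1) : ℕ) : ℝ) * κ)) - C)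
          (P.eval₂ (Int.castRingHom ℝ) (Fin.cons x t : Fin (r + 1) → ℝ) / D) →
        ∃ q : ℚ, P.eval₂ (Int.castRingHom AF)
          (Fin.cons (fn Polynomial.X) y : Fin (r + 1) → AF) = q) := by
  have := charZero_AF
  obtain ⟨κ, hκ, h⟩ := onePoint x hx r d
  refine ⟨κ + 1, by linarith, fun T => ?_⟩
  obtain ⟨c, hc, h⟩ := h T
  refine ⟨fun m hm => ?_, ?_⟩
  · obtain ⟨C, -, hC⟩ := predictMv (Ω := AF) (r + 1) d κ c (max 1 (max |x| T)) hκ hc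
      (le_max_left _ _) m hm
    refine ⟨C, fun t ht H τ P D b S N A h1 h2 h3 h4 h5 h6 h7 h8 => ?_⟩
    obtain ⟨y', ⟨y, rfl⟩, hy⟩ := hC _ _ (cons_bound x T r t ht) (h t ht) H τ P D b S N A h1 h2 h3
      h4 h5 h6 h7 h8
    exact ⟨y, hy⟩
  · obtain ⟨C, -, hC⟩ := absorbMv (Ω := AF) (r + 1) d κ c (max 1 (max |x| T)) hκ hc
      (le_max_left _ _) _ rfl
    refine ⟨C, fun t ht H τ s h1 h2 => ?_⟩
    obtain ⟨y', ⟨y, rfl⟩, hy⟩ := hC _ _ (cons_bound x T r t ht) (h t ht) H τ s h1 h2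
    exact ⟨y, hy⟩

end Pool.Agent.H218.ZP
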