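import Pool.Agent.H218.ZP.Alg

/-!
# Polynomials in several numbers whose digits have small linear complexity
-/

set_option autoImplicit false

namespace Pool.Agent.H218.ZP

open Finset Pool.Agent Pool.Agent.H218.ZW
open Pool.Agent.TH456.TM (MeasT)
open Pool.Agent.V11210.NA (AF fn fn_inj near_ev)
open Pool.Agent.V1139.DC (Small approx_of_small)

/-- **Digits.** At every scale one point absorbs all the polynomials whose values have small linear
complexity. -/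
theorem digitsMv (n d : ℕ) (κ c T ε : ℝ) (hκ : 0 < κ) (hc : 0 < c) (hT : 1 ≤ T) (hε : 0 < ε)
    {Ω : Type} [Field Ω] [CharZero Ω] :
    ∃ K δ : ℝ, 0 < K ∧ 0 < δ ∧ ∀ (z : Fin n → ℝ) (Y : (Fin n → Ω) → Prop), (∀ i, |z i| ≤ T) →
      OnePoint Ω n d κ c z Y → ∀ Λ : ℝ, ∃ y : Fin n → Ω, Y y ∧
      ∀ (P : MvPolynomial (Fin n) ℤ) (D : ℕ), Bd n d (Real.exp (δ * Λ)) P → 1 ≤ D →
        (D : ℝ) ≤ Real.exp (δ * Λ) →
        Small (1 / (κ + 1) - ε) K Λ (P.eval₂ (Int.castRingHom ℝ) z / D) →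
        ∃ r : ℚ, P.eval₂ (Int.castRingHom Ω) y = r := by
  obtain ⟨M, hM⟩ : ∃ M : ℝ, M = κ + 1 := ⟨_, rfl⟩
  have hM1 : 1 ≤ M := by linarith
  obtain ⟨ν, hν⟩ : ∃ ν : ℝ, ν = 1 / M := ⟨_, rfl⟩
  have hνM : M * ν = 1 := by rw [hν]; field_simp
  have hν1 : ν ≤ 1 := by rw [hν, div_le_one (by linarith)]; exact hM1
  rw [← hM, ← hν]
  obtain ⟨K₀, hK₀, hK⟩ := approx_of_small ν ε hν1 hε
  obtain ⟨A, hA⟩ : ∃ A : ℝ, A = ((d + 1) ^ n * T ^ d) := ⟨_, rfl⟩
  have hA0 : 0 < A := by rw [hA]; positivity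
  obtain ⟨B, hB⟩ : ∃ B : ℝ, B = 2 + A := ⟨_, rfl⟩
  have hB0 : 0 < B := by rw [hB]; positivity
  obtain ⟨K, hKd⟩ : ∃ K : ℝ, K = K₀ + 16 / ε * (|Real.log B| + |Real.log c| + 1) := ⟨_, rfl⟩
  have hlB := abs_nonneg (Real.log B)
  have hlc := abs_nonneg (Real.log c)
  have hKK₀ : K₀ ≤ K := by
    rw [hKd]
    have : 0 ≤ 16 / ε * (|Real.log B| + |Real.log c| + 1) := by positivity
    linarith
  have hK0 : 0 < K := by linarith
  refine ⟨K, ε / 8, hK0, by positivity, fun z Y hzT h Λ => ?_⟩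
  by_cases hex : ∃ x : ℝ, Small (ν - ε) K Λ x
  swap
  · obtain ⟨y, hy, -⟩ := h 1 le_rfl
    exact ⟨y, hy, fun P D _ _ _ hx => absurd ⟨_, hx⟩ hex⟩
  obtain ⟨x₀, hx₀⟩ := hex
  obtain ⟨hνε, hKΛ, -⟩ := hK K hKK₀ Λ x₀ hx₀
  have hΛ : 16 / ε * (|Real.log B| + |Real.log c| + 1) ≤ 2 * Λ := by linarith
  have hΛ2 : |Real.log B| + |Real.log c| + 1 ≤ ε / 8 * Λ := by
    rw [div_mul_eq_mul_div, div_le_iff₀ hε] at hΛ
    linarith
  have hΛ0 : 0 < Λ := by
    have : 0 < ε / 8 * Λ := by linarith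
    by_contra hcon
    push Not at hcon
    have := mul_nonpos_of_nonneg_of_nonpos (by linarith : 0 ≤ ε / 8) hcon
    linarith
  obtain ⟨U, hU⟩ : ∃ U : ℝ, U = (ν - ε / 4) * Λ := ⟨_, rfl⟩
  have hU0 : 0 ≤ U := by rw [hU]; exact mul_nonneg (by linarith) hΛ0.le
  obtain ⟨y, hY, hy⟩ := h (Real.exp U) (Real.one_le_exp hU0)
  have hlow : Real.exp (U - Λ) < c * Real.exp U ^ (-κ) := by
    rw [← Real.exp_mul]
    obtain ⟨lc, hlc'⟩ : ∃ lc, lc = Real.log c := ⟨_, rfl⟩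
    have h1 : c = Real.exp lc := by rw [hlc', Real.exp_log hc]
    rw [← hlc'] at hΛ2
    rw [h1, ← Real.exp_add]
    apply Real.exp_lt_exp.2
    have h2 := neg_abs_le lc
    have h2' := abs_nonneg lc
    have h3 : U * (-κ) = U - M * U := by rw [hM]; ring
    have h4 : M * U = Λ - M * (ε / 4) * Λ := by
      rw [hU]; linear_combination Λ * hνM
    have h5 : ε / 4 * Λ ≤ M * (ε / 4) * Λ := by
      apply mul_le_mul_of_nonneg_right _ hΛ0.le
      nlinarith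
    rw [h3, h4]
    linarith
  refine ⟨y, hY, fun P D hP hD1 hDδ hx => ?_⟩
  obtain ⟨-, -, q, p, hq1, hqU, hqx⟩ := hK K hKK₀ Λ _ hx
  obtain ⟨W, hW⟩ : ∃ W : ℝ, W = Real.exp (ε / 8 * Λ) := ⟨_, rfl⟩
  rw [← hW] at hDδ hP
  have hW1 : 1 ≤ W := by rw [hW]; exact Real.one_le_exp (by positivity)
  have hD0 : (0 : ℝ) < D := by exact_mod_cast hD1
  have hq0 : (0 : ℝ) < q := by exact_mod_cast hq1
  have hqR : (1 : ℝ) ≤ q := by exact_mod_cast hq1
  have hPz := abs_eval_le n d T hT z hzT W P hP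
  rw [← hA] at hPz
  obtain ⟨v, hv⟩ : ∃ v : ℝ, v = P.eval₂ (Int.castRingHom ℝ) z := ⟨_, rfl⟩
  rw [← hv] at hPz hqx
  obtain ⟨R, hR⟩ : ∃ R : MvPolynomial (Fin n) ℤ,
    R = MvPolynomial.C (q : ℤ) * P - MvPolynomial.C (p * (D : ℤ)) := ⟨_, rfl⟩
  have hRn : R.totalDegree ≤ d := by
    rw [hR]
    refine (MvPolynomial.totalDegree_sub _ _).trans (max_le ?_ ?_)
    · refine (MvPolynomial.totalDegree_mul _ _).trans ?_
      rw [MvPolynomial.totalDegree_C, zero_add]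
      exact hP.1
    · rw [MvPolynomial.totalDegree_C]
      exact Nat.zero_le _
  have hRev : ∀ {S : Type} [CommRing S] (y : Fin n → S),
      R.eval₂ (Int.castRingHom S) y = q * P.eval₂ (Int.castRingHom S) y - p * D := by
    intro S _ y
    rw [hR]
    simp only [MvPolynomial.eval₂_sub, MvPolynomial.eval₂_mul, MvPolynomial.eval₂_C]
    simp
  have hRz : R.eval₂ (Int.castRingHom ℝ) z = D * (q * (v / D) - p) := by
    rw [hRev, ← hv]
    field_simp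
  have hexp1 : Real.exp ((ν - ε / 2) * Λ - Λ) ≤ 1 := by
    rw [Real.exp_le_one_iff]
    nlinarith
  have hp : |(p : ℝ) * D| ≤ q * (A * W) + W := by
    have h1 : (p : ℝ) * D = q * v - D * (q * (v / D) - p) := by
      field_simp
      ring
    rw [h1]
    refine (abs_sub _ _).trans ?_
    rw [abs_mul, abs_mul, abs_of_pos hq0, abs_of_pos hD0]
    have h2 : (D : ℝ) * |(q : ℝ) * (v / D) - p| ≤ W * 1 :=
      mul_le_mul hDδ (hqx.trans hexp1) (abs_nonneg _) (by linarith)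
    have h3 : (q : ℝ) * |v| ≤ q * (A * W) := mul_le_mul_of_nonneg_left hPz hq0.le
    linarith
  have hqW : (q : ℝ) * W ≤ Real.exp ((ν - ε / 2 + ε / 8) * Λ) := by
    have h1 : Real.exp ((ν - ε / 2 + ε / 8) * Λ) = Real.exp ((ν - ε / 2) * Λ) * W := by
      rw [hW, ← Real.exp_add]
      congr 1
      ring
    rw [h1]
    exact mul_le_mul_of_nonneg_right hqU (by linarith)
  have hBU : B * Real.exp ((ν - ε / 2 + ε / 8) * Λ) ≤ Real.exp U := by
    have h1 : B = Real.exp (Real.log B) := (Real.exp_log hB0).symm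
    rw [h1, ← Real.exp_add]
    apply Real.exp_le_exp.2
    have h2 := le_abs_self (Real.log B)
    rw [hU]
    nlinarith
  have hRc : ∀ k, |((R.coeff k : ℤ) : ℝ)| ≤ Real.exp U := by
    intro k
    have h1 : ((R.coeff k : ℤ) : ℝ) = q * P.coeff k - (if 0 = k then (p : ℝ) * D else 0) := by
      rw [hR]
      simp only [MvPolynomial.coeff_sub, MvPolynomial.coeff_C_mul, MvPolynomial.coeff_C]
      split_ifs <;> simp
    rw [h1]
    refine (abs_sub _ _).trans ?_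
    have h2 : |(q : ℝ) * P.coeff k| ≤ q * W := by
      rw [abs_mul, abs_of_pos hq0]
      exact mul_le_mul_of_nonneg_left (hP.2 k) hq0.le
    have h3 : |(if 0 = k then (p : ℝ) * D else 0)| ≤ q * (A * W) + W := by
      split_ifs
      · exact hp
      · rw [abs_zero]; positivity
    have h4 : W ≤ q * W := le_mul_of_one_le_left (by linarith) hqR
    have h5 : q * W + (q * (A * W) + W) ≤ B * (q * W) := by
      have h6 : B * (q * W) = q * W + (q * (A * W) + q * W) := by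
        rw [hB]
        ring
      linarith
    calc |(q : ℝ) * P.coeff k| + |(if 0 = k then (p : ℝ) * D else 0)|
        ≤ q * W + (q * (A * W) + W) := add_le_add h2 h3
      _ ≤ B * (q * W) := h5
      _ ≤ B * Real.exp ((ν - ε / 2 + ε / 8) * Λ) := mul_le_mul_of_nonneg_left hqW hB0.le
      _ ≤ Real.exp U := hBU
  have hz0 : R.eval₂ (Int.castRingHom Ω) y = 0 := by
    by_contra h0
    have h1 := hy R ⟨hRn, hRc⟩ h0
    rw [hRz, abs_mul, abs_of_pos hD0] at h1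
    have h2 : (D : ℝ) * |(q : ℝ) * (v / D) - p| ≤ W * Real.exp ((ν - ε / 2) * Λ - Λ) :=
      mul_le_mul hDδ hqx (abs_nonneg _) (by linarith)
    have h3 : W * Real.exp ((ν - ε / 2) * Λ - Λ) ≤ Real.exp (U - Λ) := by
      rw [hW, ← Real.exp_add]
      apply Real.exp_le_exp.2
      rw [hU]
      nlinarith
    exact absurd (h1.trans (h2.trans h3)) (not_le.2 hlow)
  rw [hRev] at hz0
  refine ⟨(p * D : ℚ) / q, ?_⟩
  have hqC : (q : Ω) ≠ 0 := by
    have : q ≠ 0 := by omega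
    exact_mod_cast this
  push_cast
  rw [eq_div_iff hqC]
  linear_combination hz0

/-- **Digits of polynomials in `x` and arbitrary real numbers.** -/
theorem digitsAlg (x : ℝ) (hx : MeasT (x : ℂ)) (r d : ℕ) :
    ∃ κ : ℝ, 1 < κ ∧ ∀ T ε : ℝ, 0 < ε → ∃ K δ : ℝ, 0 < K ∧ 0 < δ ∧
      ∀ (t : Fin r → ℝ), (∀ i, |t i| ≤ T) → ∀ Λ : ℝ, ∃ y : Fin r → AF,
      ∀ (P : MvPolynomial (Fin (r + 1)) ℤ) (D : ℕ), Bd (r + 1) d (Real.exp (δ * Λ)) P → 1 ≤ D →
        (D : ℝ) ≤ Real.exp (δ * Λ) →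
        Small (1 / κ - ε) K Λ
          (P.eval₂ (Int.castRingHom ℝ) (Fin.cons x t : Fin (r + 1) → ℝ) / D) →
        ∃ q : ℚ, P.eval₂ (Int.castRingHom AF)
          (Fin.cons (fn Polynomial.X) y : Fin (r + 1) → AF) = q := by
  have := charZero_AF
  obtain ⟨κ, hκ, h⟩ := onePoint x hx r d
  refine ⟨κ + 1, by linarith, fun T ε hε => ?_⟩
  obtain ⟨c, hc, h⟩ := h T
  obtain ⟨K, δ, hK, hδ, h1⟩ := digitsMv (Ω := AF) (r + 1) d κ c (max 1 (max |x| T)) ε hκ hc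
    (le_max_left _ _) hε
  refine ⟨K, δ, hK, hδ, fun t ht Λ => ?_⟩
  obtain ⟨y', ⟨y, rfl⟩, hy⟩ := h1 _ _ (cons_bound x T r t ht) (h t ht) Λ
  exact ⟨y, hy⟩

end Pool.Agent.H218.ZP
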