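import Pool.Agent.V1139.DC.Cons
import Pool.Agent.H218.ZW.Predict

/-!
# A joint measure for the values of several polynomials, and finite-state prediction
-/

set_option autoImplicit false

namespace Pool.Agent.H218.ZP

open Finset Polynomial Pool.Agent Pool.Agent.H218.ZW

/-- `ξ` is irrational and a root of a nonzero integer polynomial of degree at most `max n 2` -/
def IrrAlg (n : ℕ) (ξ : ℂ) : Prop :=
  (¬ ∃ r : ℚ, ξ = r) ∧ ∃ G : ℤ[X], G ≠ 0 ∧ G.natDegree ≤ max n 2 ∧ aeval ξ G = 0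

/-- **The joint measure.** -/
theorem joint (z μ c : ℝ) (hμ : 1 ≤ μ) (hc : 0 < c)
    (hz : ∀ a b : ℤ, (a ≠ 0 ∨ b ≠ 0) → ∀ H : ℝ, 1 ≤ H → |(a : ℝ)| ≤ H → |(b : ℝ)| ≤ H →
      c ≤ H ^ (μ - 1) * |a + b * z|) (n : ℕ) :
    ∃ K : ℝ, 0 ≤ K ∧ ∀ (H : ℝ), 1 ≤ H → ∀ (m : ℕ) (P : Fin m → ℤ[X]) (D : Fin m → ℕ),
      (∀ i, (P i).natDegree ≤ n) → (∀ i, 1 ≤ D i) → (∀ i, (D i : ℝ) ≤ H) →
      (∀ i k, |((P i).coeff k : ℝ)| ≤ H) →
      (¬ ∃ ξ : ℂ, IrrAlg n ξ ∧ ∀ i, ∃ r : ℚ, aeval ξ (P i) = r) →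
      V11015.FS.Joint (fun i => aeval z (P i) / D i) (max μ (2 * n))
        (K + max μ (2 * n) * Real.log H) := by
  obtain ⟨c', hc', h⟩ := V1139.DC.near z μ c hμ hc hz n
  obtain ⟨M, hM⟩ : ∃ M : ℝ, M = max μ (2 * n) := ⟨_, rfl⟩
  rw [← hM] at h ⊢
  have hM1 : 1 ≤ M := by rw [hM]; exact hμ.trans (le_max_left _ _)
  obtain ⟨L, hL⟩ : ∃ L : ℝ, L = (n + 1) * (max 1 |z|) ^ n := ⟨_, rfl⟩
  have hL0 : 0 ≤ L := by rw [hL]; positivity
  obtain ⟨T, hT⟩ : ∃ T : ℝ, T = (n + 1) * (L + 2) := ⟨_, rfl⟩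
  have hT1 : 1 ≤ T := by
    rw [hT]
    nlinarith [Nat.cast_nonneg (α := ℝ) n]
  obtain ⟨u, hu⟩ : ∃ u : ℝ, u = c' * T ^ (-(M - 1)) := ⟨_, rfl⟩
  have hu0 : 0 < u := by rw [hu]; positivity
  obtain ⟨K, hK⟩ : ∃ K : ℝ, K = max 0 (-Real.log u) + 1 := ⟨_, rfl⟩
  have hK0 : 0 ≤ K := by rw [hK]; linarith [le_max_left 0 (-Real.log u)]
  have hKu : Real.exp (-K) < u := by
    calc Real.exp (-K) < Real.exp (Real.log u) := by
          apply Real.exp_lt_exp.2
          rw [hK]
          linarith [le_max_right 0 (-Real.log u)]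
      _ = u := Real.exp_log hu0
  refine ⟨K, hK0, fun H hH m P D hPn hD1 hDH hPH hno q p hq => ?_⟩
  have hH0 : 0 < H := by linarith
  by_contra hcon
  push Not at hcon
  apply hno
  obtain ⟨W, hW⟩ : ∃ W : ℝ, W = ∏ j, (q j : ℝ) := ⟨_, rfl⟩
  have hq1 : ∀ i, (1 : ℝ) ≤ q i := fun i => by exact_mod_cast hq i
  have hW1 : 1 ≤ W := by
    rw [hW]
    calc (1 : ℝ) = ∏ _j : Fin m, (1 : ℝ) := by rw [Finset.prod_const_one]
      _ ≤ ∏ j, (q j : ℝ) := Finset.prod_le_prod (fun _ _ => zero_le_one) (fun j _ => hq1 j)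
  have hW0 : 0 < W := by linarith
  have hqW : ∀ i, (q i : ℝ) ≤ W := by
    intro i
    rw [hW, ← Finset.mul_prod_erase _ _ (Finset.mem_univ i)]
    have h1 : 1 ≤ ∏ j ∈ Finset.univ.erase i, (q j : ℝ) := by
      calc (1 : ℝ) = ∏ _j ∈ Finset.univ.erase i, (1 : ℝ) := by rw [Finset.prod_const_one]
        _ ≤ ∏ j ∈ Finset.univ.erase i, (q j : ℝ) :=
          Finset.prod_le_prod (fun _ _ => zero_le_one) (fun j _ => hq1 j)
    nlinarith [hq1 i]
  have hprod : ∏ j, (q j : ℝ) ^ (-M) = W ^ (-M) := by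
    rw [hW, ← Real.finsetProd_rpow _ _ (fun i _ => by linarith [hq1 i])]
  obtain ⟨s, hs⟩ : ∃ s : ℝ, s = Real.exp (-(K + M * Real.log H)) * W ^ (-M) := ⟨_, rfl⟩
  have hs' : s = Real.exp (-K) * (H * W) ^ (-M) := by
    rw [hs, neg_add, Real.exp_add, Real.mul_rpow hH0.le hW0.le, mul_assoc]
    congr 2
    rw [Real.rpow_def_of_pos hH0]
    congr 1
    ring
  rw [hprod, ← hs] at hcon
  have hs0 : 0 < s := by rw [hs]; positivity
  have hHW : 1 ≤ H * W := one_le_mul_of_one_le_of_one_le hH hW1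
  have hs1 : s ≤ 1 := by
    rw [hs']
    have h1 : Real.exp (-K) ≤ 1 := Real.exp_le_one_iff.2 (by linarith)
    have h2 : (H * W) ^ (-M) ≤ 1 := Real.rpow_le_one_of_one_le_of_nonpos hHW (by linarith)
    have h3 : 0 < (H * W) ^ (-M) := by positivity
    nlinarith
  -- the near relations
  obtain ⟨R, hR⟩ : ∃ R : Fin m → ℤ[X], R = fun i => C (q i : ℤ) * P i - C (p i * (D i : ℤ)) := ⟨_, rfl⟩
  have hRn : ∀ i, (R i).natDegree ≤ n := by
    intro i
    rw [hR]
    refine (natDegree_sub_le _ _).trans (max_le ((natDegree_C_mul_le _ _).trans (hPn i)) ?_)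
    rw [natDegree_C]
    exact Nat.zero_le _
  have hRa : ∀ i, aeval z (R i) = q i * aeval z (P i) - p i * D i := by
    intro i
    rw [hR]
    simp
  have hD0 : ∀ i, (0 : ℝ) < D i := fun i => by exact_mod_cast hD1 i
  have hq0 : ∀ i, (0 : ℝ) < q i := fun i => by linarith [hq1 i]
  have hRz : ∀ i, |aeval z (R i)| ≤ H * W * s := by
    intro i
    have h1 : aeval z (R i) = (q i * D i) * (aeval z (P i) / D i - (p i : ℝ) / q i) := by
      rw [hRa]
      have := (hD0 i).ne'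
      have := (hq0 i).ne'
      field_simp
    rw [h1, abs_mul, abs_of_pos (mul_pos (hq0 i) (hD0 i))]
    have h2 := (hcon i).le
    have h3 := hqW i
    have h4 := hDH i
    have h5 := (hq0 i).le
    have h6 := (hD0 i).le
    calc (q i : ℝ) * D i * |aeval z (P i) / D i - (p i : ℝ) / q i| ≤ W * H * s := by gcongr
      _ = H * W * s := by ring
  have hpD : ∀ i, |(p i : ℝ) * D i| ≤ W * ((L + 1) * H) := by
    intro i
    have h1 : (p i : ℝ) * D i = (q i * D i) * (aeval z (P i) / D i) -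
        (q i * D i) * (aeval z (P i) / D i - (p i : ℝ) / q i) := by
      have := (hD0 i).ne'
      have := (hq0 i).ne'
      field_simp
      ring
    have h2 : |(q i * D i : ℝ) * (aeval z (P i) / D i)| ≤ W * (L * H) := by
      have h3 : (q i * D i : ℝ) * (aeval z (P i) / D i) = q i * aeval z (P i) := by
        have := (hD0 i).ne'
        field_simp
      rw [h3, abs_mul, abs_of_pos (hq0 i)]
      have h4 := V1139.DC.abs_aeval_le z (P i) n (hPn i) H (hPH i)
      rw [← hL] at h4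
      have h5 := hqW i
      gcongr
    have h3 : |(q i * D i : ℝ) * (aeval z (P i) / D i - (p i : ℝ) / q i)| ≤ W * H := by
      rw [abs_mul, abs_of_pos (mul_pos (hq0 i) (hD0 i))]
      have h4 : |aeval z (P i) / D i - (p i : ℝ) / q i| ≤ 1 := (hcon i).le.trans hs1
      have h5 := hqW i
      have h6 := hDH i
      have h7 := (hD0 i).le
      calc (q i : ℝ) * D i * |aeval z (P i) / D i - (p i : ℝ) / q i| ≤ W * H * 1 := by gcongr
        _ = W * H := by ring
    rw [h1]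
    refine (abs_sub _ _).trans ?_
    nlinarith
  have hRc : ∀ i k, |((R i).coeff k : ℝ)| ≤ (L + 2) * (H * W) := by
    intro i k
    have h1 : ((R i).coeff k : ℝ) = q i * (P i).coeff k - (if k = 0 then (p i : ℝ) * D i else 0) := by
      rw [hR]
      simp only [coeff_sub, coeff_C_mul, coeff_C]
      push_cast
      split_ifs <;> ring
    rw [h1]
    refine (abs_sub _ _).trans ?_
    have h2 : |(q i : ℝ) * (P i).coeff k| ≤ W * H := by
      rw [abs_mul, abs_of_pos (hq0 i)]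
      have h3 := hqW i
      have h4 := hPH i k
      gcongr
    have h3 : |(if k = 0 then (p i : ℝ) * D i else 0)| ≤ W * ((L + 1) * H) := by
      split_ifs
      · exact hpD i
      · rw [abs_zero]; positivity
    nlinarith
  obtain ⟨ξ, hξ1, hξ2, hξ3⟩ := h (T * (H * W)) (H * W * s)
    (one_le_mul_of_one_le_of_one_le hT1 hHW) (by
      rw [hs', Real.mul_rpow (x := T) (y := H * W) (by linarith) (by linarith)]
      have h1 : H * W * (Real.exp (-K) * (H * W) ^ (-M)) = Real.exp (-K) * (H * W) ^ (-(M - 1)) := by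
        rw [show -(M - 1) = 1 + -M by ring, Real.rpow_add (by linarith), Real.rpow_one]
        ring
      rw [h1, ← mul_assoc, ← hu]
      exact mul_lt_mul_of_pos_right hKu (by positivity))
  refine ⟨ξ, ⟨hξ1, hξ2⟩, fun i => ?_⟩
  have hz0 : aeval ξ (R i) = 0 := by
    rcases eq_or_ne (R i) 0 with h0 | h0
    · rw [h0, map_zero]
    · refine hξ3 (R i) ⟨h0, hRn i, ?_, hRz i⟩
      refine (V1139.DC.MM_le (R i) n (hRn i) _ (hRc i)).trans (le_of_eq ?_)
      rw [hT]
      ring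
  have h1 : aeval ξ (R i) = q i * aeval ξ (P i) - p i * D i := by
    rw [hR]
    simp
  refine ⟨(p i * D i : ℚ) / q i, ?_⟩
  have hqC : (q i : ℂ) ≠ 0 := by
    have : q i ≠ 0 := by have := hq i; omega
    exact_mod_cast this
  push_cast
  rw [eq_div_iff hqC]
  rw [hz0] at h1
  linear_combination -h1

/-- **Finite-state prediction of the values of several polynomials.** -/
theorem predictSeveral (z μ c : ℝ) (hμ : 1 < μ) (hc : 0 < c)
    (hz : ∀ a b : ℤ, (a ≠ 0 ∨ b ≠ 0) → ∀ H : ℝ, 1 ≤ H → |(a : ℝ)| ≤ H → |(b : ℝ)| ≤ H →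
      c ≤ H ^ (μ - 1) * |a + b * z|) (n m : ℕ) (hm : 1 ≤ m) :
    ∃ C : ℝ, 0 ≤ C ∧ ∀ (H t : ℝ) (P : Fin m → ℤ[X]) (D b S N : Fin m → ℕ)
      (A : ∀ i, Machine (Fin (S i))), 1 ≤ H → 0 < t → (∀ i, (P i).natDegree ≤ n) → (∀ i, 1 ≤ D i) →
      (∀ i, (D i : ℝ) ≤ H) → (∀ i k, |((P i).coeff k : ℝ)| ≤ H) → (∀ i, 2 ≤ b i) →
      (∀ i, t ≤ N i * Real.log (b i)) →
      ((∑ i, (A i).errors (b i) (aeval z (P i) / D i) (N i) : ℕ) : ℝ) <
        (Real.log t - Real.log (∑ i, (S i : ℝ) * Real.log (b i) + Real.log H)) /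
          Real.log (m * max μ (2 * n)) - C →
      ∃ ξ : ℂ, IrrAlg n ξ ∧ ∀ i, ∃ r : ℚ, aeval ξ (P i) = r := by
  obtain ⟨K, hK0, hK⟩ := joint z μ c hμ.le hc hz n
  obtain ⟨M, hM⟩ : ∃ M : ℝ, M = max μ (2 * n) := ⟨_, rfl⟩
  rw [← hM] at hK ⊢
  have hM1 : 1 < M := by rw [hM]; exact hμ.trans_le (le_max_left _ _)
  have hmR : (1 : ℝ) ≤ m := by exact_mod_cast hm
  have hmM : 1 < (m : ℝ) * M := by nlinarith
  have hlm : 0 < Real.log (m * M) := Real.log_pos hmM
  have hlog2 : 0 < Real.log 2 := Real.log_pos (by norm_num)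
  have : Nonempty (Fin m) := ⟨⟨0, hm⟩⟩
  obtain ⟨C, hC⟩ : ∃ C : ℝ, C = Real.log (1 + K / Real.log 2 + M) / Real.log (m * M) +
    (1 + Real.log ((M + 2) / (m * M - 1)) / Real.log (m * M)) := ⟨_, rfl⟩
  refine ⟨max C 0, le_max_right _ _, fun H t P D b S N A hH ht hPn hD1 hDH hPH hb hN herr => ?_⟩
  by_contra hno
  have hJ := hK H hH m P D hPn hD1 hDH hPH hno
  have hlH : 0 ≤ Real.log H := Real.log_nonneg hH
  have hmain := V11015.FS.main (ι := Fin m) (fun i => aeval z (P i) / (D i : ℝ)) b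
    (Q := fun i => Fin (S i)) (fun i => (A i).next) (fun i => (A i).guess) (fun i => (A i).start) hb
    (κ := M) (D := K + M * Real.log H) (by linarith) (by positivity)
    (by rw [Fintype.card_fin]; exact hmM) hJ N ht hN
  rw [Fintype.card_fin] at hmain
  have hsiz : V11015.FS.siz b (fun i => Fin (S i)) = ∑ i, (S i : ℝ) * Real.log (b i) := by
    unfold V11015.FS.siz
    exact Finset.sum_congr rfl fun i _ => by rw [Fintype.card_fin]
  rw [hsiz] at hmain
  obtain ⟨σ, hσ⟩ : ∃ σ : ℝ, σ = ∑ i, (S i : ℝ) * Real.log (b i) := ⟨_, rfl⟩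
  rw [← hσ] at hmain herr
  have hσ2 : Real.log 2 ≤ σ := by
    have h1 : (S ⟨0, hm⟩ : ℝ) * Real.log (b ⟨0, hm⟩) ≤ σ := by
      rw [hσ]
      exact Finset.single_le_sum
        (f := fun i => (S i : ℝ) * Real.log (b i)) (fun i _ =>
          mul_nonneg (Nat.cast_nonneg _) (V11015.FS.log_base_pos (hb i)).le) (Finset.mem_univ _)
    have h2 : (1 : ℝ) ≤ S ⟨0, hm⟩ := by
      have h4 := (A ⟨0, hm⟩).start.pos
      exact_mod_cast h4
    have h3 : Real.log 2 ≤ Real.log (b ⟨0, hm⟩) := by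
      apply Real.log_le_log (by norm_num)
      exact_mod_cast hb _
    nlinarith
  have h7 : (∑ i, V60.FSP.err (A i).next (A i).guess (V60.FSP.dg (b i) (aeval z (P i) / D i))
      (A i).start 0 (N i)) = ∑ i, (A i).errors (b i) (aeval z (P i) / D i) (N i) :=
    Finset.sum_congr rfl fun i _ => (errors_eq _ _ _ _).symm
  rw [h7] at hmain
  have hσH : 0 < σ + Real.log H := by linarith
  have h5 : Real.log (K + M * Real.log H + σ) ≤
      Real.log (σ + Real.log H) + Real.log (1 + K / Real.log 2 + M) := by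
    have hσ0 : 0 < σ := by linarith
    rw [← Real.log_mul hσH.ne' (by positivity)]
    apply Real.log_le_log (by positivity)
    have h6 : K ≤ (σ + Real.log H) * (K / Real.log 2) := by
      rw [mul_div_assoc', le_div_iff₀ hlog2]
      nlinarith
    nlinarith
  have h8 : Real.log (K + M * Real.log H + σ) / Real.log (m * M) ≤
      (Real.log (σ + Real.log H) + Real.log (1 + K / Real.log 2 + M)) / Real.log (m * M) :=
    div_le_div_of_nonneg_right h5 hlm.le
  have h9 := le_max_left C 0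
  rw [add_div] at h8
  rw [sub_div] at hmain herr
  linarith

/-- the digits of `x` in some base are predicted with less than `e` errors up to the scale `t` by a
machine of size at most `s` -/
def Predicted (s t e x : ℝ) : Prop :=
  ∃ (b S N : ℕ) (A : Machine (Fin S)), 2 ≤ b ∧ S * Real.log b ≤ s ∧ t ≤ N * Real.log b ∧
    (A.errors b x N : ℝ) < e

/-- the rational-valued vectors form a subspace -/
def rv (n : ℕ) (ξ : ℂ) : Submodule ℚ (Fin n → ℚ) where
  carrier := {v | ∃ r : ℚ, ∑ i, (v i : ℂ) * ξ ^ ((i : ℕ) + 1) = r}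
  add_mem' := by
    rintro v w ⟨r, hr⟩ ⟨s, hs⟩
    refine ⟨r + s, ?_⟩
    push_cast
    rw [← hr, ← hs, ← Finset.sum_add_distrib]
    refine Finset.sum_congr rfl fun i _ => ?_
    rw [Pi.add_apply]
    push_cast
    ring
  zero_mem' := ⟨0, by simp⟩
  smul_mem' := by
    rintro a v ⟨r, hr⟩
    refine ⟨a * r, ?_⟩
    push_cast
    rw [← hr, Finset.mul_sum]
    refine Finset.sum_congr rfl fun i _ => ?_
    rw [Pi.smul_apply, smul_eq_mul]
    push_cast
    ring

/-- the coefficients without the constant coefficient -/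
def vec (n : ℕ) (P : ℤ[X]) : Fin n → ℚ := fun i => (P.coeff ((i : ℕ) + 1) : ℚ)

theorem mem_rv (n : ℕ) (ξ : ℂ) (P : ℤ[X]) (hP : P.natDegree ≤ n) :
    vec n P ∈ rv n ξ ↔ ∃ r : ℚ, aeval ξ P = r := by
  have h1 : aeval ξ P = ∑ i, ((vec n P i : ℚ) : ℂ) * ξ ^ ((i : ℕ) + 1) + P.coeff 0 := by
    rw [aeval_eq_sum_range' (show P.natDegree < n + 1 by omega), Finset.sum_range_succ',
      Finset.sum_range]
    congr 1
    · refine Finset.sum_congr rfl fun i _ => ?_
      rw [zsmul_eq_mul]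
      unfold vec
      push_cast
      rfl
    · rw [zsmul_eq_mul, pow_zero, mul_one]
  constructor
  · rintro ⟨r, hr⟩
    refine ⟨r + P.coeff 0, ?_⟩
    rw [h1, hr]
    push_cast
    rfl
  · rintro ⟨r, hr⟩
    refine ⟨r - P.coeff 0, ?_⟩
    rw [h1] at hr
    push_cast
    rw [← hr]
    ring

/-- **At every scale one algebraic number absorbs all the polynomials whose values can be predicted.** -/
theorem absorbPredicted (z μ c : ℝ) (hμ : 1 < μ) (hc : 0 < c)
    (hz : ∀ a b : ℤ, (a ≠ 0 ∨ b ≠ 0) → ∀ H : ℝ, 1 ≤ H → |(a : ℝ)| ≤ H → |(b : ℝ)| ≤ H →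
      c ≤ H ^ (μ - 1) * |a + b * z|) (n : ℕ) (hn : 1 ≤ n) :
    ∃ C : ℝ, 0 ≤ C ∧ ∀ (H t s : ℝ), 1 ≤ H → 0 < t → ∃ ξ : ℂ, IrrAlg n ξ ∧
      ∀ (P : ℤ[X]) (D : ℕ), P.natDegree ≤ n → 1 ≤ D → (D : ℝ) ≤ H → (∀ k, |(P.coeff k : ℝ)| ≤ H) →
        Predicted s t ((Real.log t - Real.log (s + Real.log H)) /
          (n * Real.log (n * max μ (2 * n))) - C) (aeval z P / D) →
        ∃ r : ℚ, aeval ξ P = r := by
  classical
  obtain ⟨C, hC0, hC⟩ := predictSeveral z μ c hμ hc hz n n hn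
  obtain ⟨M, hM⟩ : ∃ M : ℝ, M = max μ (2 * n) := ⟨_, rfl⟩
  rw [← hM] at hC ⊢
  have hM1 : 1 < M := by rw [hM]; exact hμ.trans_le (le_max_left _ _)
  have hnR : (1 : ℝ) ≤ n := by exact_mod_cast hn
  have hnM : 1 < (n : ℝ) * M := by nlinarith
  have hln : 0 < Real.log (n * M) := Real.log_pos hnM
  have hlnn : 0 ≤ Real.log n := Real.log_nonneg hnR
  have hlog2 : 0 < Real.log 2 := Real.log_pos (by norm_num)
  refine ⟨C + Real.log n / Real.log (n * M), by positivity, fun H t s hH ht => ?_⟩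
  have hlH : 0 ≤ Real.log H := Real.log_nonneg hH
  obtain ⟨e, he⟩ : ∃ e : ℝ, e = (Real.log t - Real.log (s + Real.log H)) /
          (n * Real.log (n * M)) - (C + Real.log n / Real.log (n * M)) := ⟨_, rfl⟩
  rw [← he]
  obtain ⟨F, hF⟩ : ∃ F : Set ℤ[X], F = {P : ℤ[X] | P.natDegree ≤ n ∧ ∃ D : ℕ, 1 ≤ D ∧ (D : ℝ) ≤ H ∧
    (∀ k, |(P.coeff k : ℝ)| ≤ H) ∧ Predicted s t e (aeval z P / D)} := ⟨_, rfl⟩
  suffices hs : ∃ ξ : ℂ, IrrAlg n ξ ∧ ∀ P ∈ F, ∃ r : ℚ, aeval ξ P = r by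
    obtain ⟨ξ, h1, h2⟩ := hs
    exact ⟨ξ, h1, fun P D h3 h4 h5 h6 h7 => h2 P (by rw [hF]; exact ⟨h3, D, h4, h5, h6, h7⟩)⟩
  obtain ⟨B, hBF, hBspan, hBlin⟩ := exists_linearIndependent ℚ (vec n '' F)
  have hBfin : B.Finite := hBlin.setFinite
  by_cases hBe : B = ∅
  · -- all polynomials are constant
    refine ⟨Complex.I, ⟨V1139.DC.I_irrational, X ^ 2 + 1, V1139.DC.X_sq_add_one_ne,
      V1139.DC.X_sq_add_one_deg.trans (le_max_right _ _), V1139.DC.X_sq_add_one_I⟩, fun P hP => ?_⟩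
    have hPn : P.natDegree ≤ n := by rw [hF] at hP; exact hP.1
    rw [← mem_rv n Complex.I P hPn]
    have h1 : vec n P ∈ Submodule.span ℚ (vec n '' F) :=
      Submodule.subset_span (Set.mem_image_of_mem _ hP)
    rw [← hBspan, hBe, Submodule.span_empty, Submodule.mem_bot] at h1
    rw [h1]
    exact Submodule.zero_mem _
  · have hBne : B.Nonempty := Set.nonempty_iff_ne_empty.2 hBe
    have hfB : Fintype B := hBfin.fintype
    have hcard : Fintype.card B ≤ Fintype.card (Fin n) := by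
      have h1 := hBlin.fintype_card_le_finrank
      rw [Module.finrank_fin_fun] at h1
      rw [Fintype.card_fin]
      exact h1
    obtain ⟨g⟩ := Function.Embedding.nonempty_of_card_le hcard
    have : Nonempty B := hBne.to_subtype
    obtain ⟨f, hf⟩ : ∃ f : Fin n → B, Function.Surjective f :=
      ⟨Function.invFun g, Function.invFun_surjective g.injective⟩
    have hpre : ∀ v : B, ∃ P ∈ F, vec n P = v := fun v => hBF v.2
    choose P hPF hPv using hpre
    have hPF' : ∀ v : B, (P v).natDegree ≤ n ∧ ∃ D : ℕ, 1 ≤ D ∧ (D : ℝ) ≤ H ∧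
        (∀ k, |((P v).coeff k : ℝ)| ≤ H) ∧ Predicted s t e (aeval z (P v) / D) := by
      intro v
      have := hPF v
      rw [hF] at this
      exact this
    choose hPn D hD1 hDH hPH hpred using hPF'
    choose b S N A hb hS hN herr using hpred
    have hSsum : ∑ i, (S (f i) : ℝ) * Real.log (b (f i)) ≤ n * s := by
      calc ∑ i, (S (f i) : ℝ) * Real.log (b (f i)) ≤ ∑ _i : Fin n, s :=
            Finset.sum_le_sum fun i _ => hS (f i)
        _ = n * s := by rw [Finset.sum_const, Finset.card_univ, Fintype.card_fin, nsmul_eq_mul]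
    have hs2 : Real.log 2 ≤ s := by
      refine le_trans ?_ (hS (f ⟨0, hn⟩))
      have h2 : (1 : ℝ) ≤ S (f ⟨0, hn⟩) := by
        have h4 := (A (f ⟨0, hn⟩)).start.pos
        exact_mod_cast h4
      have h3 : Real.log 2 ≤ Real.log (b (f ⟨0, hn⟩)) := by
        apply Real.log_le_log (by norm_num)
        exact_mod_cast hb _
      nlinarith
    have hspos : 0 < s + Real.log H := by linarith
    have hSpos : 0 < ∑ i, (S (f i) : ℝ) * Real.log (b (f i)) := by
      have : Nonempty (Fin n) := ⟨⟨0, hn⟩⟩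
      refine Finset.sum_pos (fun i _ => ?_) Finset.univ_nonempty
      have h2 : 0 < S (f i) := lt_of_le_of_lt (Nat.zero_le _) (A (f i)).start.isLt
      have h3 : (0 : ℝ) < S (f i) := by exact_mod_cast h2
      exact mul_pos h3 (V11015.FS.log_base_pos (hb _))
    have hlog : Real.log (∑ i, (S (f i) : ℝ) * Real.log (b (f i)) + Real.log H) ≤
        Real.log n + Real.log (s + Real.log H) := by
      rw [← Real.log_mul (by positivity) hspos.ne']
      apply Real.log_le_log (by linarith)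
      nlinarith
    have hsumerr : ((∑ i, (A (f i)).errors (b (f i)) (aeval z (P (f i)) / D (f i)) (N (f i)) : ℕ) : ℝ)
        < n * e := by
      push_cast
      have : Nonempty (Fin n) := ⟨⟨0, hn⟩⟩
      calc ∑ i, ((A (f i)).errors (b (f i)) (aeval z (P (f i)) / D (f i)) (N (f i)) : ℝ)
          < ∑ _i : Fin n, e := Finset.sum_lt_sum_of_nonempty Finset.univ_nonempty
            fun i _ => herr (f i)
        _ = n * e := by rw [Finset.sum_const, Finset.card_univ, Fintype.card_fin, nsmul_eq_mul]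
    obtain ⟨ξ, hξ1, hξ2⟩ := hC H t (fun i => P (f i)) (fun i => D (f i)) (fun i => b (f i))
      (fun i => S (f i)) (fun i => N (f i)) (fun i => A (f i)) hH ht (fun i => hPn _)
      (fun i => hD1 _) (fun i => hDH _) (fun i => hPH _) (fun i => hb _) (fun i => hN _) (by
        refine hsumerr.trans_le ?_
        have h1 : n * e = (Real.log t - Real.log (s + Real.log H)) / Real.log (n * M) -
            n * (C + Real.log n / Real.log (n * M)) := by
          rw [he]
          have : (n : ℝ) ≠ 0 := by positivity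
          field_simp
        rw [h1]
        have h2 : Real.log (∑ i, (S (f i) : ℝ) * Real.log (b (f i)) + Real.log H) /
            Real.log (n * M) ≤ (Real.log n + Real.log (s + Real.log H)) / Real.log (n * M) :=
          div_le_div_of_nonneg_right hlog hln.le
        have h3 : C + Real.log n / Real.log (n * M) ≤ n * (C + Real.log n / Real.log (n * M)) := by
          have h4 : 0 ≤ C + Real.log n / Real.log (n * M) := by positivity
          nlinarith
        rw [add_div] at h2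
        rw [sub_div, sub_div]
        linarith)
    refine ⟨ξ, hξ1, fun Q hQ => ?_⟩
    have hQn : Q.natDegree ≤ n := by rw [hF] at hQ; exact hQ.1
    rw [← mem_rv n ξ Q hQn]
    have h1 : vec n Q ∈ Submodule.span ℚ (vec n '' F) :=
      Submodule.subset_span (Set.mem_image_of_mem _ hQ)
    rw [← hBspan] at h1
    have h2 : Submodule.span ℚ B ≤ rv n ξ := by
      rw [Submodule.span_le]
      intro v hv
      obtain ⟨i, hi⟩ := hf ⟨v, hv⟩
      have h3 := hPv ⟨v, hv⟩
      have h4 := (mem_rv n ξ (P ⟨v, hv⟩) (hPn _)).2 (by rw [← hi]; exact hξ2 i)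
      rw [h3] at h4
      exact h4
    exact h2 h1

/-- **almost all polynomials** -/
theorem count (n : ℕ) (hn : 1 ≤ n) (c : ℕ → ℚ) (hc1 : c 1 ≠ 0) (Y : ℕ) :
    {P : ℤ[X] | P.natDegree ≤ n ∧ (∀ i, |P.coeff i| ≤ Y) ∧
      ∑ i ∈ range (n + 1), c i * P.coeff i = 0}.Finite ∧
    {P : ℤ[X] | P.natDegree ≤ n ∧ (∀ i, |P.coeff i| ≤ Y) ∧
      ∑ i ∈ range (n + 1), c i * P.coeff i = 0}.ncard ≤ (2 * Y + 1) ^ n := by
  classical
  obtain ⟨S, hS⟩ : ∃ S : Set ℤ[X], S = {P : ℤ[X] | P.natDegree ≤ n ∧ (∀ i, |P.coeff i| ≤ Y) ∧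
    ∑ i ∈ range (n + 1), c i * P.coeff i = 0} := ⟨_, rfl⟩
  rw [← hS]
  -- the coefficients except the first
  obtain ⟨g, hg⟩ : ∃ g : ℤ[X] → (Fin n → ℤ), g = fun (P : ℤ[X]) (i : Fin n) =>
    if (i : ℕ) = 0 then P.coeff 0 else P.coeff ((i : ℕ) + 1) := ⟨_, rfl⟩
  obtain ⟨B, hB⟩ : ∃ B : Finset (Fin n → ℤ), B = Fintype.piFinset fun _ => Finset.Icc (-(Y : ℤ)) Y :=
    ⟨_, rfl⟩
  have hmaps : ∀ P ∈ S, g P ∈ (B : Set (Fin n → ℤ)) := by
    intro P hP
    rw [hS] at hP
    rw [hB, Finset.mem_coe, Fintype.mem_piFinset]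
    intro i
    rw [Finset.mem_Icc, ← abs_le, hg]
    dsimp only
    split_ifs
    · exact hP.2.1 _
    · exact hP.2.1 _
  have hinj : Set.InjOn g S := by
    intro P hP Q hQ hPQ
    rw [hS] at hP hQ
    have hcoef : ∀ i, i ≠ 1 → P.coeff i = Q.coeff i := by
      intro i hi
      rcases lt_or_ge n i with h4 | h4
      · rw [coeff_eq_zero_of_natDegree_lt (by have := hP.1; omega),
          coeff_eq_zero_of_natDegree_lt (by have := hQ.1; omega)]
      · rcases Nat.eq_zero_or_pos i with h5 | h5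
        · have h6 := congrFun hPQ ⟨0, by omega⟩
          rw [hg] at h6
          simp only [if_true] at h6
          rw [h5]; exact h6
        · have h6 := congrFun hPQ ⟨i - 1, by omega⟩
          rw [hg] at h6
          dsimp only at h6
          rw [if_neg (by omega), if_neg (by omega), show i - 1 + 1 = i by omega] at h6
          exact h6
    have h4 := hP.2.2
    have h5 := hQ.2.2
    have h6 : c 1 * (P.coeff 1 : ℚ) = c 1 * Q.coeff 1 := by
      have h7 : ∑ i ∈ range (n + 1), c i * P.coeff i = c 1 * (P.coeff 1 : ℚ) +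
          ∑ i ∈ (range (n + 1)).erase 1, c i * P.coeff i :=
        (Finset.add_sum_erase _ (fun i => c i * (P.coeff i : ℚ)) (by rw [mem_range]; omega)).symm
      have h8 : ∑ i ∈ range (n + 1), c i * Q.coeff i = c 1 * (Q.coeff 1 : ℚ) +
          ∑ i ∈ (range (n + 1)).erase 1, c i * Q.coeff i :=
        (Finset.add_sum_erase _ (fun i => c i * (Q.coeff i : ℚ)) (by rw [mem_range]; omega)).symm
      have h9 : ∑ i ∈ (range (n + 1)).erase 1, c i * P.coeff i =
          ∑ i ∈ (range (n + 1)).erase 1, c i * (Q.coeff i : ℚ) :=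
        Finset.sum_congr rfl fun i hi => by rw [hcoef i (Finset.ne_of_mem_erase hi)]
      rw [h4] at h7
      rw [h5] at h8
      rw [h9] at h7
      linarith
    have h7 : (P.coeff 1 : ℚ) = Q.coeff 1 := mul_left_cancel₀ hc1 h6
    ext i
    rcases eq_or_ne i 1 with h8 | h8
    · rw [h8]; exact_mod_cast h7
    · exact hcoef i h8
  have hfin : S.Finite := Set.Finite.of_injOn hmaps hinj B.finite_toSet
  refine ⟨hfin, ?_⟩
  have h4 := Set.ncard_le_ncard_of_injOn g hmaps hinj B.finite_toSet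
  rw [Set.ncard_coe_finset, hB, Fintype.card_piFinset, Finset.prod_const, Finset.card_univ,
    Fintype.card_fin, Int.card_Icc] at h4
  refine h4.trans (le_of_eq ?_)
  congr 1
  omega

/-- a rational value of `A X ^ k + B` at `ξ` -/
theorem rat_pow (ξ : ℂ) (A B : ℤ) (k : ℕ) (hA : A ≠ 0)
    (h : ∃ r : ℚ, aeval ξ (C A * X ^ k + C B : ℤ[X]) = r) : ∃ r : ℚ, ξ ^ k = r := by
  obtain ⟨r, hr⟩ := h
  refine ⟨(r - B) / A, ?_⟩
  have hAC : (A : ℂ) ≠ 0 := by exact_mod_cast hA
  have h5 : aeval ξ (C A * X ^ k + C B : ℤ[X]) = A * ξ ^ k + B := by simp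
  rw [h5] at hr
  push_cast
  rw [eq_div_iff hAC]
  linear_combination hr

end Pool.Agent.H218.ZP
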