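import Pool.Agent.H218.ZP.Joint

/-!
# Finite-state prediction of the values of polynomials in several variables

The input is a statement on near relations: at every height one point `y` over a field `Ω` absorbs all
integer polynomials with small values at the real point `z`.
-/

set_option autoImplicit false

namespace Pool.Agent.H218.ZP

open Finset Pool.Agent Pool.Agent.H218.ZW

/-- total degree at most `d`, coefficients of absolute value at most `H` -/
def Bd (n d : ℕ) (H : ℝ) (P : MvPolynomial (Fin n) ℤ) : Prop :=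
  P.totalDegree ≤ d ∧ ∀ m, |((P.coeff m : ℤ) : ℝ)| ≤ H

/-- the exponents -/
noncomputable def exps (n d : ℕ) : Finset (Fin n →₀ ℕ) := Finset.univ.finsupp fun _ => Finset.range (d + 1)

lemma card_exps (n d : ℕ) : (exps n d).card = (d + 1) ^ n := by
  unfold exps
  rw [Finset.card_finsupp]
  simp

lemma support_exps (n d : ℕ) (P : MvPolynomial (Fin n) ℤ) (hP : P.totalDegree ≤ d) :
    P.support ⊆ exps n d := by
  intro m hm
  unfold exps
  rw [Finset.mem_finsupp_iff]
  refine ⟨fun i _ => Finset.mem_univ i, fun i _ => ?_⟩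
  rw [Finset.mem_range]
  have h1 := (MvPolynomial.le_totalDegree hm).trans hP
  rw [Finsupp.sum_fintype _ _ (by simp)] at h1
  have h2 : m i ≤ ∑ j, m j := Finset.single_le_sum (fun j _ => Nat.zero_le (m j)) (Finset.mem_univ i)
  omega

lemma eval_exps {S : Type} [CommRing S] (n d : ℕ) (P : MvPolynomial (Fin n) ℤ)
    (hP : P.totalDegree ≤ d) (y : Fin n → S) :
    P.eval₂ (Int.castRingHom S) y = ∑ m ∈ exps n d, ((P.coeff m : ℤ) : S) * ∏ i, y i ^ m i := by
  rw [MvPolynomial.eval₂_eq']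
  refine Finset.sum_subset (support_exps n d P hP) fun m _ hm => ?_
  rw [MvPolynomial.notMem_support_iff] at hm
  rw [hm]
  simp

lemma abs_eval_le (n d : ℕ) (T : ℝ) (hT : 1 ≤ T) (z : Fin n → ℝ) (hz : ∀ i, |z i| ≤ T) (H : ℝ)
    (P : MvPolynomial (Fin n) ℤ) (hP : Bd n d H P) :
    |P.eval₂ (Int.castRingHom ℝ) z| ≤ ((d + 1) ^ n * T ^ d) * H := by
  have hH0 : 0 ≤ H := (abs_nonneg _).trans (hP.2 0)
  rw [MvPolynomial.eval₂_eq']
  have h1 : ∀ m ∈ P.support, |(Int.castRingHom ℝ) (P.coeff m) * ∏ i, z i ^ m i| ≤ H * T ^ d := by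
    intro m hm
    rw [abs_mul, Finset.abs_prod]
    have h2 : ∏ i, |z i ^ m i| ≤ ∏ i, T ^ m i := by
      refine Finset.prod_le_prod (fun i _ => abs_nonneg _) fun i _ => ?_
      rw [abs_pow]
      exact pow_le_pow_left₀ (abs_nonneg _) (hz i) _
    rw [Finset.prod_pow_eq_pow_sum] at h2
    have h3 := (MvPolynomial.le_totalDegree hm).trans hP.1
    rw [Finsupp.sum_fintype _ _ (by simp)] at h3
    have h4 : T ^ (∑ i, m i) ≤ T ^ d := pow_le_pow_right₀ hT h3
    have h5 : |(Int.castRingHom ℝ) (P.coeff m)| ≤ H := hP.2 m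
    have h6 : (0 : ℝ) ≤ ∏ i, |z i ^ m i| := Finset.prod_nonneg fun i _ => abs_nonneg _
    exact mul_le_mul h5 (h2.trans h4) h6 hH0
  calc |∑ m ∈ P.support, (Int.castRingHom ℝ) (P.coeff m) * ∏ i, z i ^ m i|
      ≤ ∑ m ∈ P.support, |(Int.castRingHom ℝ) (P.coeff m) * ∏ i, z i ^ m i| :=
        Finset.abs_sum_le_sum_abs _ _
    _ ≤ ∑ _m ∈ P.support, H * T ^ d := Finset.sum_le_sum h1
    _ = (P.support.card : ℝ) * (H * T ^ d) := by rw [Finset.sum_const, nsmul_eq_mul]
    _ ≤ ((d + 1) ^ n : ℝ) * (H * T ^ d) := by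
        have h7 : (P.support.card : ℝ) ≤ (d + 1) ^ n := by
          have h8 := Finset.card_le_card (support_exps n d P hP.1)
          rw [card_exps] at h8
          exact_mod_cast h8
        have h9 : 0 ≤ H * T ^ d := by positivity
        exact mul_le_mul_of_nonneg_right h7 h9
    _ = _ := by ring

variable {Ω : Type} [Field Ω] [CharZero Ω]

/-- near relations come from one point over `Ω` at each height -/
def OnePoint (Ω : Type) [Field Ω] (n d : ℕ) (κ c : ℝ) (z : Fin n → ℝ) (Y : (Fin n → Ω) → Prop) :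
    Prop :=
  ∀ H : ℝ, 1 ≤ H → ∃ y : Fin n → Ω, Y y ∧ ∀ P : MvPolynomial (Fin n) ℤ, Bd n d H P →
    P.eval₂ (Int.castRingHom Ω) y ≠ 0 → c * H ^ (-κ) ≤ |P.eval₂ (Int.castRingHom ℝ) z|

/-- **The joint measure.** -/
theorem jointMv (n d : ℕ) (κ c T : ℝ) (hκ : 0 < κ) (hc : 0 < c) (hT : 1 ≤ T) :
    ∃ K : ℝ, 0 ≤ K ∧ ∀ (z : Fin n → ℝ) (Y : (Fin n → Ω) → Prop), (∀ i, |z i| ≤ T) →
      OnePoint Ω n d κ c z Y → ∀ (H : ℝ), 1 ≤ H → ∀ (m : ℕ) (P : Fin m → MvPolynomial (Fin n) ℤ)
      (D : Fin m → ℕ), (∀ i, Bd n d H (P i)) → (∀ i, 1 ≤ D i) → (∀ i, (D i : ℝ) ≤ H) →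
      (¬ ∃ y : Fin n → Ω, Y y ∧ ∀ i, ∃ r : ℚ, (P i).eval₂ (Int.castRingHom Ω) y = r) →
      V11015.FS.Joint (fun i => (P i).eval₂ (Int.castRingHom ℝ) z / D i) (κ + 1)
        (K + (κ + 1) * Real.log H) := by
  obtain ⟨M, hM⟩ : ∃ M : ℝ, M = κ + 1 := ⟨_, rfl⟩
  have hM1 : 1 ≤ M := by linarith
  obtain ⟨L, hL⟩ : ∃ L : ℝ, L = ((d + 1) ^ n * T ^ d) := ⟨_, rfl⟩
  have hL0 : 0 ≤ L := by rw [hL]; positivity
  obtain ⟨u, hu⟩ : ∃ u : ℝ, u = c * (L + 2) ^ (-κ) := ⟨_, rfl⟩
  have hu0 : 0 < u := by rw [hu]; positivity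
  obtain ⟨K, hK⟩ : ∃ K : ℝ, K = max 0 (-Real.log u) + 1 := ⟨_, rfl⟩
  have hK0 : 0 ≤ K := by rw [hK]; linarith [le_max_left 0 (-Real.log u)]
  have hKu : Real.exp (-K) < u := by
    calc Real.exp (-K) < Real.exp (Real.log u) := by
          apply Real.exp_lt_exp.2
          rw [hK]
          linarith [le_max_right 0 (-Real.log u)]
      _ = u := Real.exp_log hu0
  rw [← hM]
  refine ⟨K, hK0, fun z Y hzT h H hH m P D hPb hD1 hDH hno q p hq => ?_⟩
  have hH0 : 0 < H := by linarith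
  by_contra hcon
  push Not at hcon
  apply hno
  obtain ⟨W, hW⟩ : ∃ W : ℝ, W = ∏ j, (q j : ℝ) := ⟨_, rfl⟩
  have hq1 : ∀ i, (1 : ℝ) ≤ q i := fun i => by exact_mod_cast hq i
  have hW1 : 1 ≤ W := by
    rw [hW]
    calc (1 : ℝ) = ∏ _j : Fin m, (1 : ℝ) := by rw [Finset.prod_const_one]
      _ ≤ ∏ j, (q j : ℝ) := Finset.prod_le_prod (fun _ _ => zero_le_one) (fun j _ => hq1 j)
  have hW0 : 0 < W := by linarith
  have hqW : ∀ i, (q i : ℝ) ≤ W := by
    intro i
    rw [hW, ← Finset.mul_prod_erase _ _ (Finset.mem_univ i)]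
    have h1 : 1 ≤ ∏ j ∈ Finset.univ.erase i, (q j : ℝ) := by
      calc (1 : ℝ) = ∏ _j ∈ Finset.univ.erase i, (1 : ℝ) := by rw [Finset.prod_const_one]
        _ ≤ ∏ j ∈ Finset.univ.erase i, (q j : ℝ) :=
          Finset.prod_le_prod (fun _ _ => zero_le_one) (fun j _ => hq1 j)
    nlinarith [hq1 i]
  have hprod : ∏ j, (q j : ℝ) ^ (-M) = W ^ (-M) := by
    rw [hW, ← Real.finsetProd_rpow _ _ (fun i _ => by linarith [hq1 i])]
  obtain ⟨s, hs⟩ : ∃ s : ℝ, s = Real.exp (-(K + M * Real.log H)) * W ^ (-M) := ⟨_, rfl⟩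
  have hs' : s = Real.exp (-K) * (H * W) ^ (-M) := by
    rw [hs, neg_add, Real.exp_add, Real.mul_rpow hH0.le hW0.le, mul_assoc]
    congr 2
    rw [Real.rpow_def_of_pos hH0]
    congr 1
    ring
  rw [hprod, ← hs] at hcon
  have hs0 : 0 < s := by rw [hs]; positivity
  have hHW : 1 ≤ H * W := one_le_mul_of_one_le_of_one_le hH hW1
  have hs1 : s ≤ 1 := by
    rw [hs']
    have h1 : Real.exp (-K) ≤ 1 := Real.exp_le_one_iff.2 (by linarith)
    have h2 : (H * W) ^ (-M) ≤ 1 := Real.rpow_le_one_of_one_le_of_nonpos hHW (by linarith)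
    have h3 : 0 < (H * W) ^ (-M) := by positivity
    nlinarith
  -- the near relations
  obtain ⟨R, hR⟩ : ∃ R : Fin m → MvPolynomial (Fin n) ℤ,
    R = fun i => MvPolynomial.C (q i : ℤ) * P i - MvPolynomial.C (p i * (D i : ℤ)) := ⟨_, rfl⟩
  have hRn : ∀ i, (R i).totalDegree ≤ d := by
    intro i
    rw [hR]
    refine (MvPolynomial.totalDegree_sub _ _).trans (max_le ?_ ?_)
    · refine (MvPolynomial.totalDegree_mul _ _).trans ?_
      rw [MvPolynomial.totalDegree_C, zero_add]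
      exact (hPb i).1
    · rw [MvPolynomial.totalDegree_C]
      exact Nat.zero_le _
  have hRev : ∀ {S : Type} [CommRing S] (y : Fin n → S) (i : Fin m),
      (R i).eval₂ (Int.castRingHom S) y = q i * (P i).eval₂ (Int.castRingHom S) y - p i * D i := by
    intro S _ y i
    rw [hR]
    simp only [MvPolynomial.eval₂_sub, MvPolynomial.eval₂_mul, MvPolynomial.eval₂_C]
    simp
  have hD0 : ∀ i, (0 : ℝ) < D i := fun i => by exact_mod_cast hD1 i
  have hq0 : ∀ i, (0 : ℝ) < q i := fun i => by linarith [hq1 i]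
  obtain ⟨v, hv⟩ : ∃ v : Fin m → ℝ, v = fun i => (P i).eval₂ (Int.castRingHom ℝ) z := ⟨_, rfl⟩
  have hvi : ∀ i, (P i).eval₂ (Int.castRingHom ℝ) z = v i := fun i => by rw [hv]
  simp only [hvi] at hcon
  have hRz : ∀ i, |(R i).eval₂ (Int.castRingHom ℝ) z| ≤ H * W * s := by
    intro i
    have h1 : (R i).eval₂ (Int.castRingHom ℝ) z = (q i * D i) * (v i / D i - (p i : ℝ) / q i) := by
      rw [hRev, hvi]
      have := (hD0 i).ne'
      have := (hq0 i).ne'
      field_simp
    rw [h1, abs_mul, abs_of_pos (mul_pos (hq0 i) (hD0 i))]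
    have h2 := (hcon i).le
    have h3 := hqW i
    have h4 := hDH i
    have h5 := (hq0 i).le
    have h6 := (hD0 i).le
    calc (q i : ℝ) * D i * |v i / D i - (p i : ℝ) / q i| ≤ W * H * s := by gcongr
      _ = H * W * s := by ring
  have hpD : ∀ i, |(p i : ℝ) * D i| ≤ W * ((L + 1) * H) := by
    intro i
    have h1 : (p i : ℝ) * D i = (q i * D i) * (v i / D i) -
        (q i * D i) * (v i / D i - (p i : ℝ) / q i) := by
      have := (hD0 i).ne'
      have := (hq0 i).ne'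
      field_simp
      ring
    have h2 : |(q i * D i : ℝ) * (v i / D i)| ≤ W * (L * H) := by
      have h3 : (q i * D i : ℝ) * (v i / D i) = q i * v i := by
        have := (hD0 i).ne'
        field_simp
      rw [h3, abs_mul, abs_of_pos (hq0 i)]
      have h4 := abs_eval_le n d T hT z hzT H (P i) (hPb i)
      rw [← hL, hvi] at h4
      have h5 := hqW i
      gcongr
    have h3 : |(q i * D i : ℝ) * (v i / D i - (p i : ℝ) / q i)| ≤ W * H := by
      rw [abs_mul, abs_of_pos (mul_pos (hq0 i) (hD0 i))]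
      have h4 : |v i / D i - (p i : ℝ) / q i| ≤ 1 := (hcon i).le.trans hs1
      have h5 := hqW i
      have h6 := hDH i
      have h7 := (hD0 i).le
      calc (q i : ℝ) * D i * |v i / D i - (p i : ℝ) / q i| ≤ W * H * 1 := by gcongr
        _ = W * H := by ring
    rw [h1]
    refine (abs_sub _ _).trans ?_
    nlinarith
  have hRc : ∀ i k, |(((R i).coeff k : ℤ) : ℝ)| ≤ (L + 2) * (H * W) := by
    intro i k
    have h1 : (((R i).coeff k : ℤ) : ℝ) = q i * (P i).coeff k -
        (if 0 = k then (p i : ℝ) * D i else 0) := by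
      rw [hR]
      simp only [MvPolynomial.coeff_sub, MvPolynomial.coeff_C_mul, MvPolynomial.coeff_C]
      split_ifs <;> simp
    rw [h1]
    refine (abs_sub _ _).trans ?_
    have h2 : |(q i : ℝ) * (P i).coeff k| ≤ W * H := by
      rw [abs_mul, abs_of_pos (hq0 i)]
      have h3 := hqW i
      have h4 := (hPb i).2 k
      gcongr
    have h3 : |(if 0 = k then (p i : ℝ) * D i else 0)| ≤ W * ((L + 1) * H) := by
      split_ifs
      · exact hpD i
      · rw [abs_zero]; positivity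
    nlinarith
  obtain ⟨y, hY, hy⟩ := h ((L + 2) * (H * W))
    (one_le_mul_of_one_le_of_one_le (by linarith) hHW)
  refine ⟨y, hY, fun i => ?_⟩
  have hz0 : (R i).eval₂ (Int.castRingHom Ω) y = 0 := by
    by_contra h0
    have h1 := hy (R i) ⟨hRn i, hRc i⟩ h0
    have h2 : H * W * s < c * ((L + 2) * (H * W)) ^ (-κ) := by
      rw [hs', Real.mul_rpow (x := L + 2) (y := H * W) (by linarith) (by linarith)]
      have h3 : H * W * (Real.exp (-K) * (H * W) ^ (-M)) = Real.exp (-K) * (H * W) ^ (-κ) := by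
        rw [show -κ = 1 + -M by rw [hM]; ring, Real.rpow_add (by linarith), Real.rpow_one]
        ring
      rw [h3, ← mul_assoc, ← hu]
      exact mul_lt_mul_of_pos_right hKu (by positivity)
    exact absurd (h1.trans (hRz i)) (not_le.2 h2)
  rw [hRev] at hz0
  refine ⟨(p i * D i : ℚ) / q i, ?_⟩
  have hqC : (q i : Ω) ≠ 0 := by
    have : q i ≠ 0 := by have := hq i; omega
    exact_mod_cast this
  push_cast
  rw [eq_div_iff hqC]
  linear_combination hz0

/-- **Finite-state prediction of the values of several polynomials in several variables.** -/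
theorem predictMv (n d : ℕ) (κ c T : ℝ) (hκ : 0 < κ) (hc : 0 < c) (hT : 1 ≤ T) (m : ℕ)
    (hm : 1 ≤ m) :
    ∃ C : ℝ, 0 ≤ C ∧ ∀ (z : Fin n → ℝ) (Y : (Fin n → Ω) → Prop), (∀ i, |z i| ≤ T) →
      OnePoint Ω n d κ c z Y → ∀ (H t : ℝ) (P : Fin m → MvPolynomial (Fin n) ℤ)
      (D b S N : Fin m → ℕ) (A : ∀ i, Machine (Fin (S i))), 1 ≤ H → 0 < t →
      (∀ i, Bd n d H (P i)) → (∀ i, 1 ≤ D i) → (∀ i, (D i : ℝ) ≤ H) → (∀ i, 2 ≤ b i) →
      (∀ i, t ≤ N i * Real.log (b i)) →
      ((∑ i, (A i).errors (b i) ((P i).eval₂ (Int.castRingHom ℝ) z / D i) (N i) : ℕ) : ℝ) <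
        (Real.log t - Real.log (∑ i, (S i : ℝ) * Real.log (b i) + Real.log H)) /
          Real.log (m * (κ + 1)) - C →
      ∃ y : Fin n → Ω, Y y ∧ ∀ i, ∃ r : ℚ, (P i).eval₂ (Int.castRingHom Ω) y = r := by
  obtain ⟨K, hK0, hK⟩ := jointMv (Ω := Ω) n d κ c T hκ hc hT
  obtain ⟨M, hM⟩ : ∃ M : ℝ, M = κ + 1 := ⟨_, rfl⟩
  rw [← hM] at hK ⊢
  have hM1 : 1 < M := by linarith
  have hmR : (1 : ℝ) ≤ m := by exact_mod_cast hm
  have hmM : 1 < (m : ℝ) * M := by nlinarith
  have hlm : 0 < Real.log (m * M) := Real.log_pos hmM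
  have hlog2 : 0 < Real.log 2 := Real.log_pos (by norm_num)
  have : Nonempty (Fin m) := ⟨⟨0, hm⟩⟩
  obtain ⟨C, hC⟩ : ∃ C : ℝ, C = Real.log (1 + K / Real.log 2 + M) / Real.log (m * M) +
    (1 + Real.log ((M + 2) / (m * M - 1)) / Real.log (m * M)) := ⟨_, rfl⟩
  refine ⟨max C 0, le_max_right _ _,
    fun z Y hzT hnear H t P D b S N A hH ht hPb hD1 hDH hb hN herr => ?_⟩
  by_contra hno
  have hJ := hK z Y hzT hnear H hH m P D hPb hD1 hDH hno
  have hlH : 0 ≤ Real.log H := Real.log_nonneg hH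
  have hmain := V11015.FS.main (ι := Fin m) (fun i => (P i).eval₂ (Int.castRingHom ℝ) z / (D i : ℝ)) b
    (Q := fun i => Fin (S i)) (fun i => (A i).next) (fun i => (A i).guess) (fun i => (A i).start) hb
    (κ := M) (D := K + M * Real.log H) (by linarith) (by positivity)
    (by rw [Fintype.card_fin]; exact hmM) hJ N ht hN
  rw [Fintype.card_fin] at hmain
  have hsiz : V11015.FS.siz b (fun i => Fin (S i)) = ∑ i, (S i : ℝ) * Real.log (b i) := by
    unfold V11015.FS.siz
    exact Finset.sum_congr rfl fun i _ => by rw [Fintype.card_fin]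
  rw [hsiz] at hmain
  obtain ⟨σ, hσ⟩ : ∃ σ : ℝ, σ = ∑ i, (S i : ℝ) * Real.log (b i) := ⟨_, rfl⟩
  rw [← hσ] at hmain herr
  have hσ2 : Real.log 2 ≤ σ := by
    have h1 : (S ⟨0, hm⟩ : ℝ) * Real.log (b ⟨0, hm⟩) ≤ σ := by
      rw [hσ]
      exact Finset.single_le_sum
        (f := fun i => (S i : ℝ) * Real.log (b i)) (fun i _ =>
          mul_nonneg (Nat.cast_nonneg _) (V11015.FS.log_base_pos (hb i)).le) (Finset.mem_univ _)
    have h2 : (1 : ℝ) ≤ S ⟨0, hm⟩ := by
      have h4 := (A ⟨0, hm⟩).start.pos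
      exact_mod_cast h4
    have h3 : Real.log 2 ≤ Real.log (b ⟨0, hm⟩) := by
      apply Real.log_le_log (by norm_num)
      exact_mod_cast hb _
    nlinarith
  have h7 : (∑ i, V60.FSP.err (A i).next (A i).guess
      (V60.FSP.dg (b i) ((P i).eval₂ (Int.castRingHom ℝ) z / D i))
      (A i).start 0 (N i)) =
      ∑ i, (A i).errors (b i) ((P i).eval₂ (Int.castRingHom ℝ) z / D i) (N i) :=
    Finset.sum_congr rfl fun i _ => (errors_eq _ _ _ _).symm
  rw [h7] at hmain
  have hσH : 0 < σ + Real.log H := by linarith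
  have h5 : Real.log (K + M * Real.log H + σ) ≤
      Real.log (σ + Real.log H) + Real.log (1 + K / Real.log 2 + M) := by
    have hσ0 : 0 < σ := by linarith
    rw [← Real.log_mul hσH.ne' (by positivity)]
    apply Real.log_le_log (by positivity)
    have h6 : K ≤ (σ + Real.log H) * (K / Real.log 2) := by
      rw [mul_div_assoc', le_div_iff₀ hlog2]
      nlinarith
    nlinarith
  have h8 : Real.log (K + M * Real.log H + σ) / Real.log (m * M) ≤
      (Real.log (σ + Real.log H) + Real.log (1 + K / Real.log 2 + M)) / Real.log (m * M) :=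
    div_le_div_of_nonneg_right h5 hlm.le
  have h9 := le_max_left C 0
  rw [add_div] at h8
  rw [sub_div] at hmain herr
  linarith

/-- the rational-valued vectors form a subspace -/
def rvMv (n d : ℕ) (y : Fin n → Ω) : Submodule ℚ (exps n d → ℚ) where
  carrier := {v | ∃ r : ℚ, ∑ m, (v m : Ω) * ∏ i, y i ^ m.1 i = r}
  add_mem' := by
    rintro v w ⟨r, hr⟩ ⟨s, hs⟩
    refine ⟨r + s, ?_⟩
    push_cast
    rw [← hr, ← hs, ← Finset.sum_add_distrib]
    refine Finset.sum_congr rfl fun i _ => ?_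
    rw [Pi.add_apply]
    push_cast
    ring
  zero_mem' := ⟨0, by simp⟩
  smul_mem' := by
    rintro a v ⟨r, hr⟩
    refine ⟨a * r, ?_⟩
    push_cast
    rw [← hr, Finset.mul_sum]
    refine Finset.sum_congr rfl fun i _ => ?_
    rw [Pi.smul_apply, smul_eq_mul]
    push_cast
    ring

/-- the vector of the coefficients -/
def vecMv (n d : ℕ) (P : MvPolynomial (Fin n) ℤ) : exps n d → ℚ := fun m => ((P.coeff m.1 : ℤ) : ℚ)

theorem mem_rvMv (n d : ℕ) (y : Fin n → Ω) (P : MvPolynomial (Fin n) ℤ) (hP : P.totalDegree ≤ d) :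
    vecMv n d P ∈ rvMv n d y ↔ ∃ r : ℚ, P.eval₂ (Int.castRingHom Ω) y = r := by
  have h1 : P.eval₂ (Int.castRingHom Ω) y =
      ∑ m, ((vecMv n d P m : ℚ) : Ω) * ∏ i, y i ^ m.1 i := by
    rw [eval_exps n d P hP y, ← Finset.sum_coe_sort]
    refine Finset.sum_congr rfl fun m _ => ?_
    unfold vecMv
    push_cast
    rfl
  rw [h1]
  rfl

/-- **At every scale one point absorbs all the polynomials whose values can be predicted.** -/
theorem absorbMv (n d : ℕ) (κ c T : ℝ) (hκ : 0 < κ) (hc : 0 < c) (hT : 1 ≤ T) (k : ℕ)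
    (hk : k = (d + 1) ^ n) :
    ∃ C : ℝ, 0 ≤ C ∧ ∀ (z : Fin n → ℝ) (Y : (Fin n → Ω) → Prop), (∀ i, |z i| ≤ T) →
      OnePoint Ω n d κ c z Y → ∀ (H t s : ℝ), 1 ≤ H → 0 < t → ∃ y : Fin n → Ω, Y y ∧
      ∀ (P : MvPolynomial (Fin n) ℤ) (D : ℕ), Bd n d H P → 1 ≤ D → (D : ℝ) ≤ H →
        Predicted s t ((Real.log t - Real.log (s + Real.log H)) /
          (k * Real.log (k * (κ + 1))) - C) (P.eval₂ (Int.castRingHom ℝ) z / D) →
        ∃ r : ℚ, P.eval₂ (Int.castRingHom Ω) y = r := by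
  classical
  have hk1 : 1 ≤ k := by rw [hk]; exact Nat.one_le_pow _ _ (by omega)
  obtain ⟨C, hC0, hC⟩ := predictMv (Ω := Ω) n d κ c T hκ hc hT k hk1
  obtain ⟨M, hM⟩ : ∃ M : ℝ, M = κ + 1 := ⟨_, rfl⟩
  rw [← hM] at hC ⊢
  have hM1 : 1 < M := by linarith
  have hnR : (1 : ℝ) ≤ k := by exact_mod_cast hk1
  have hnM : 1 < (k : ℝ) * M := by nlinarith
  have hln : 0 < Real.log (k * M) := Real.log_pos hnM
  have hlnn : 0 ≤ Real.log k := Real.log_nonneg hnR
  have hlog2 : 0 < Real.log 2 := Real.log_pos (by norm_num)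
  refine ⟨C + Real.log k / Real.log (k * M), by positivity,
    fun z Y hzT hnear H t s hH ht => ?_⟩
  have hlH : 0 ≤ Real.log H := Real.log_nonneg hH
  obtain ⟨e, he⟩ : ∃ e : ℝ, e = (Real.log t - Real.log (s + Real.log H)) /
          (k * Real.log (k * M)) - (C + Real.log k / Real.log (k * M)) := ⟨_, rfl⟩
  rw [← he]
  obtain ⟨F, hF⟩ : ∃ F : Set (MvPolynomial (Fin n) ℤ), F = {P | Bd n d H P ∧ ∃ D : ℕ, 1 ≤ D ∧
    (D : ℝ) ≤ H ∧ Predicted s t e (P.eval₂ (Int.castRingHom ℝ) z / D)} := ⟨_, rfl⟩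
  suffices hs : ∃ y : Fin n → Ω, Y y ∧ ∀ P ∈ F, ∃ r : ℚ, P.eval₂ (Int.castRingHom Ω) y = r by
    obtain ⟨y, h1, h2⟩ := hs
    exact ⟨y, h1, fun P D h3 h4 h5 h7 => h2 P (by rw [hF]; exact ⟨h3, D, h4, h5, h7⟩)⟩
  obtain ⟨B, hBF, hBspan, hBlin⟩ := exists_linearIndependent ℚ (vecMv n d '' F)
  have hBfin : B.Finite := hBlin.setFinite
  by_cases hBe : B = ∅
  · obtain ⟨y, hy, -⟩ := hnear 1 le_rfl
    refine ⟨y, hy, fun P hP => ?_⟩
    have hPn : P.totalDegree ≤ d := by rw [hF] at hP; exact hP.1.1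
    rw [← mem_rvMv n d y P hPn]
    have h1 : vecMv n d P ∈ Submodule.span ℚ (vecMv n d '' F) :=
      Submodule.subset_span (Set.mem_image_of_mem _ hP)
    rw [← hBspan, hBe, Submodule.span_empty, Submodule.mem_bot] at h1
    rw [h1]
    exact Submodule.zero_mem _
  · have hBne : B.Nonempty := Set.nonempty_iff_ne_empty.2 hBe
    have hfB : Fintype B := hBfin.fintype
    have hcard : Fintype.card B ≤ Fintype.card (Fin k) := by
      have h1 := hBlin.fintype_card_le_finrank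
      rw [Module.finrank_fintype_fun_eq_card, Fintype.card_coe, card_exps] at h1
      rw [Fintype.card_fin, hk]
      exact h1
    obtain ⟨g⟩ := Function.Embedding.nonempty_of_card_le hcard
    have : Nonempty B := hBne.to_subtype
    obtain ⟨f, hf⟩ : ∃ f : Fin k → B, Function.Surjective f :=
      ⟨Function.invFun g, Function.invFun_surjective g.injective⟩
    have hpre : ∀ v : B, ∃ P ∈ F, vecMv n d P = v := fun v => hBF v.2
    choose P hPF hPv using hpre
    have hPF' : ∀ v : B, Bd n d H (P v) ∧ ∃ D : ℕ, 1 ≤ D ∧ (D : ℝ) ≤ H ∧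
        Predicted s t e ((P v).eval₂ (Int.castRingHom ℝ) z / D) := by
      intro v
      have := hPF v
      rw [hF] at this
      exact this
    choose hPb D hD1 hDH hpred using hPF'
    choose b S N A hb hS hN herr using hpred
    have hSsum : ∑ i, (S (f i) : ℝ) * Real.log (b (f i)) ≤ k * s := by
      calc ∑ i, (S (f i) : ℝ) * Real.log (b (f i)) ≤ ∑ _i : Fin k, s :=
            Finset.sum_le_sum fun i _ => hS (f i)
        _ = k * s := by rw [Finset.sum_const, Finset.card_univ, Fintype.card_fin, nsmul_eq_mul]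
    have hs2 : Real.log 2 ≤ s := by
      refine le_trans ?_ (hS (f ⟨0, hk1⟩))
      have h2 : (1 : ℝ) ≤ S (f ⟨0, hk1⟩) := by
        have h4 := (A (f ⟨0, hk1⟩)).start.pos
        exact_mod_cast h4
      have h3 : Real.log 2 ≤ Real.log (b (f ⟨0, hk1⟩)) := by
        apply Real.log_le_log (by norm_num)
        exact_mod_cast hb _
      nlinarith
    have hspos : 0 < s + Real.log H := by linarith
    have hSpos : 0 < ∑ i, (S (f i) : ℝ) * Real.log (b (f i)) := by
      have : Nonempty (Fin k) := ⟨⟨0, hk1⟩⟩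
      refine Finset.sum_pos (fun i _ => ?_) Finset.univ_nonempty
      have h2 : 0 < S (f i) := lt_of_le_of_lt (Nat.zero_le _) (A (f i)).start.isLt
      have h3 : (0 : ℝ) < S (f i) := by exact_mod_cast h2
      exact mul_pos h3 (V11015.FS.log_base_pos (hb _))
    have hlog : Real.log (∑ i, (S (f i) : ℝ) * Real.log (b (f i)) + Real.log H) ≤
        Real.log k + Real.log (s + Real.log H) := by
      rw [← Real.log_mul (by positivity) hspos.ne']
      apply Real.log_le_log (by linarith)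
      nlinarith
    have hsumerr : ((∑ i, (A (f i)).errors (b (f i))
        ((P (f i)).eval₂ (Int.castRingHom ℝ) z / D (f i)) (N (f i)) : ℕ) : ℝ) < k * e := by
      push_cast
      have : Nonempty (Fin k) := ⟨⟨0, hk1⟩⟩
      calc ∑ i, ((A (f i)).errors (b (f i))
            ((P (f i)).eval₂ (Int.castRingHom ℝ) z / D (f i)) (N (f i)) : ℝ)
          < ∑ _i : Fin k, e := Finset.sum_lt_sum_of_nonempty Finset.univ_nonempty
            fun i _ => herr (f i)
        _ = k * e := by rw [Finset.sum_const, Finset.card_univ, Fintype.card_fin, nsmul_eq_mul]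
    obtain ⟨y, hy1, hy2⟩ := hC z Y hzT hnear H t (fun i => P (f i)) (fun i => D (f i))
      (fun i => b (f i)) (fun i => S (f i)) (fun i => N (f i)) (fun i => A (f i)) hH ht
      (fun i => hPb _) (fun i => hD1 _) (fun i => hDH _) (fun i => hb _) (fun i => hN _) (by
        refine hsumerr.trans_le ?_
        have h1 : k * e = (Real.log t - Real.log (s + Real.log H)) / Real.log (k * M) -
            k * (C + Real.log k / Real.log (k * M)) := by
          rw [he]
          have : (k : ℝ) ≠ 0 := by positivity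
          field_simp
        rw [h1]
        have h2 : Real.log (∑ i, (S (f i) : ℝ) * Real.log (b (f i)) + Real.log H) /
            Real.log (k * M) ≤ (Real.log k + Real.log (s + Real.log H)) / Real.log (k * M) :=
          div_le_div_of_nonneg_right hlog hln.le
        have h3 : C + Real.log k / Real.log (k * M) ≤ k * (C + Real.log k / Real.log (k * M)) := by
          have h4 : 0 ≤ C + Real.log k / Real.log (k * M) := by positivity
          nlinarith
        rw [add_div] at h2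
        rw [sub_div, sub_div]
        linarith)
    refine ⟨y, hy1, fun Q hQ => ?_⟩
    have hQn : Q.totalDegree ≤ d := by rw [hF] at hQ; exact hQ.1.1
    rw [← mem_rvMv n d y Q hQn]
    have h1 : vecMv n d Q ∈ Submodule.span ℚ (vecMv n d '' F) :=
      Submodule.subset_span (Set.mem_image_of_mem _ hQ)
    rw [← hBspan] at h1
    have h2 : Submodule.span ℚ B ≤ rvMv n d y := by
      rw [Submodule.span_le]
      intro v hv
      obtain ⟨i, hi⟩ := hf ⟨v, hv⟩
      have h3 := hPv ⟨v, hv⟩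
      have h4 := (mem_rvMv n d y (P ⟨v, hv⟩) (hPb _).1).2 (by rw [← hi]; exact hy2 i)
      rw [h3] at h4
      exact h4
    exact h2 h1

end Pool.Agent.H218.ZP
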